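import Pool.Agent.H84.NT.Targets3

/-!
# The event `Ev` alone (module EVP)
-/

open MeasureTheory ProbabilityTheory
open scoped ENNReal

namespace Pool.Agent.H73.NT

open Pool.Agent.H99.NS Pool.Agent.H22.LPP Pool.Agent.H95.INS Pool.Agent.H84.NT

/-- The data with the largest possible lateral cut-off. -/
noncomputable def wX (D : Dat) : Dat := { D with X := 256 * D.n - D.A * D.w }

theorem wX_ok {D : Dat} (h : D.Ok) : (wX D).Ok where
  q0 := h.q0
  q1 := h.q1
  n1 := h.n1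
  ne := h.ne
  w1 := h.w1
  f0 := h.f0
  sc := h.sc
  A2 := h.A2
  Ae := h.Ae
  K0 := h.K0
  B0 := h.B0
  BA := h.BA
  c1 := h.c1
  c2 := h.c2
  c3 := h.c3
  c4 := h.c4
  X1 := by
    have h1 := h.X1
    have h2 := h.X2
    show 16 * D.A * D.w ≤ 256 * D.n - D.A * D.w
    linarith
  X2 := by
    show 256 * D.n - D.A * D.w + D.A * D.w ≤ 256 * D.n
    linarith

theorem wX_sm {D : Dat} {ω : Env} : Sm (wX D) ω ↔ Sm D ω :=
  ⟨fun h => ⟨h.s1, h.s2, h.s3⟩, fun h => ⟨h.s1, h.s2, h.s3⟩⟩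

theorem wX_lo {D : Dat} {ω : Env} : LO (wX D) ω ↔ LO D ω :=
  ⟨fun h => ⟨h.l1, h.l2, h.l3⟩, fun h => ⟨h.l1, h.l2, h.l3⟩⟩

theorem wX_ev {D : Dat} {ω : Env} (h : Ev (wX D) ω) : Ev D ω :=
  ⟨h.u1, h.u2, wX_sm.1 h.sm, h.d1, h.d2, h.cu, h.h1, h.h2, wX_lo.1 h.lo⟩

theorem wX_fc {D : Dat} {out : Env} (h : FC D out) : FC (wX D) out where
  u1 := h.u1
  u2 := h.u2
  d1 := h.d1
  d2 := h.d2
  sm := by
    have h1 := h.sm
    unfold Pin at h1 ⊢
    simp only [wX_sm]
    exact h1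
  cu := h.cu

theorem wX_ends {D : Dat} (h : D.Ok) : Ends (wX D) (-(256 * D.n), 0) (256 * D.n, 0) where
  o1 := le_refl _
  e1 := le_refl _
  oe := by
    obtain ⟨k, hk⟩ := h.ne
    exact ⟨-(256 * k), by show -(256 * D.n) + 0 = _; rw [hk]; ring⟩
  re := by
    have h1 := h.n1
    refine ⟨?_, ?_⟩
    · show |(0 : ℤ) - 0| ≤ 256 * D.n - -(256 * D.n)
      rw [sub_self, abs_zero]
      linarith
    · exact ⟨256 * D.n, by show 256 * D.n - -(256 * D.n) + (0 - 0) = _; ring⟩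

theorem wX_rr {D : Dat} (h : D.Ok) (hA : D.A * D.w ≤ 4 * D.n) (ω : Env) :
    RR (wX D) ω (-(256 * D.n), 0) (256 * D.n, 0) := by
  intro g hg _
  have h1 := h.n1
  have hc : Conn (-(256 * D.n), 0) (256 * D.n, 0) g := hg.1
  have e1 : g (-(256 * D.n)) = 0 := hc.2.1
  have e2 : g (256 * D.n) = 0 := hc.2.2
  have l1 := (path_lip hc.1 (a := -(256 * D.n)) (b := -(4 * D.n)) (le_refl _) (by linarith)
    (by show -(4 * D.n) ≤ 256 * D.n; linarith)).1
  have l2 := (path_lip hc.1 (a := 4 * D.n) (b := 256 * D.n)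
    (by show -(256 * D.n) ≤ 4 * D.n; linarith) (by linarith) (le_refl _)).1
  rw [e1, sub_zero] at l1
  rw [e2, zero_sub, abs_neg] at l2
  constructor
  · show |g (-(4 * D.n))| ≤ 256 * D.n - D.A * D.w
    linarith
  · show |g (4 * D.n)| ≤ 256 * D.n - D.A * D.w
    linarith

theorem pf_EVP (h_IN1 : T_IN1) : T_EVP := by
  intro D out hD hA hFC hLO
  have h := h_IN1 (wX D) out (-(256 * D.n), 0) (256 * D.n, 0) (wX_ok hD) (wX_ends hD)
    (wX_fc hFC) (by
      unfold RF Pin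
      have : {ω : Env | ¬ RR (wX D) (splice (Bx (wX D)) ω out) (-(256 * D.n), 0)
          (256 * D.n, 0)} = ∅ := by
        ext ω
        simp only [Set.mem_ofPred_eq, Set.mem_empty_iff_false, iff_false, not_not]
        exact wX_rr hD hA _
      rw [this, measure_empty]
      exact zero_le) (by
      simp only [wX_lo]
      exact hLO)
  refine le_trans h ?_
  unfold Pin
  exact measure_mono fun ω hω => wX_ev hω.1

end Pool.Agent.H73.NT
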